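/-
Module R2-4 of the WB project (MP_7b8095_gt): chains outside the horoballs.  helper9.
-/
import Pool.Agent.helper21.WB.LibB
import Pool.Agent.helper80.WB.H2
import Pool.Agent.helper7.WB.RDefs

set_option autoImplicit false
open Matrix MeasureTheory

namespace Pool.Agent.helper7.WB
open Pool.Agent.helper21.WB

namespace R24

theorem hb_pos' {ξ : I → ℝ} (h : NullF ξ) (y : X) : 0 < hb ξ y := H2.hbpos h y

/-- Lipschitz property of `log hb`. -/
theorem hb_lip' {ξ : I → ℝ} (h : NullF ξ) (x y : X) : hb ξ y ≤ Real.exp (hd x y) * hb ξ x := by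
  have hx := hb_pos' h x
  set a := hd x y with ha
  have ha0 : 0 ≤ a := hd_nonneg x y
  have hxy : bl (lift x) (lift y) = - Real.cosh a := by rw [ha, cosh_hd]; unfold ch; ring
  have hξx : bl ξ (lift x) = - hb ξ x := by unfold hb; ring
  have hξy : bl ξ (lift y) = - hb ξ y := by unfold hb; ring
  set n := ξ - hb ξ x • lift x with hn
  set v := lift y - Real.cosh a • lift x with hv
  have hn0 : bl n (lift x) = 0 := by
    rw [hn, bl_sub_left, bl_smul_left, hξx, bl_lift]; ring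
  have hv0 : bl v (lift x) = 0 := by
    rw [hv, bl_sub_left, bl_smul_left, bl_comm, hxy, bl_lift]; ring
  have hnn : bl n n = hb ξ x ^ 2 := by
    rw [hn]
    simp only [bl_sub_left, bl_sub_right, bl_smul_left, bl_smul_right, bl_lift, hξx, h.1,
      bl_comm (lift x) ξ]
    ring
  have hvv : bl v v = Real.sinh a ^ 2 := by
    rw [hv]
    simp only [bl_sub_left, bl_sub_right, bl_smul_left, bl_smul_right, bl_lift, hxy,
      bl_comm (lift y) (lift x)]
    rw [Real.sinh_sq]; ring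
  have hnv : bl n v = - hb ξ y + hb ξ x * Real.cosh a := by
    rw [hn, hv]
    simp only [bl_sub_left, bl_sub_right, bl_smul_left, bl_smul_right, bl_lift, hxy, hξx, hξy]
    ring
  have hcs := B1a.cs_orth x n v hn0 hv0
  rw [hnn, hvv, hnv, ← mul_pow] at hcs
  have hs : 0 ≤ Real.sinh a := Real.sinh_nonneg_iff.2 ha0
  have h1 := abs_le_of_sq_le_sq hcs (mul_nonneg hx.le hs)
  have h2 := (abs_le.1 h1).1
  have h3 : Real.exp a = Real.cosh a + Real.sinh a := (Real.cosh_add_sinh a).symm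
  rw [h3]
  nlinarith

/-- one step towards `y` -/
theorem exists_step (z y : X) {δ : ℝ} (hδ : 0 ≤ δ) :
    ∃ w, hd z w ≤ δ ∧ hd w y ≤ max 0 (hd z y - δ) := by
  by_cases h : hd z y ≤ δ
  · exact ⟨y, h, by rw [hd_self]; exact le_max_left _ _⟩
  · push Not at h
    obtain ⟨c, -, -, -, hc⟩ := exists_geod z y
    have hpos : 0 < hd z y := lt_of_le_of_lt hδ h
    have hm : δ / hd z y ∈ Set.Icc (0:ℝ) 1 :=
      ⟨div_nonneg hδ hpos.le, (div_le_one hpos).2 h.le⟩
    obtain ⟨h1, h2⟩ := hc _ hm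
    refine ⟨c (δ / hd z y), ?_, ?_⟩
    · rw [h1, div_mul_cancel₀ _ hpos.ne']
    · rw [h2, sub_mul, one_mul, div_mul_cancel₀ _ hpos.ne']
      exact le_max_right _ _

theorem exists_path (x y : X) {δ : ℝ} (hδ : 0 ≤ δ) (m : ℕ) (hm : hd x y ≤ m * δ) :
    ∃ z : ℕ → X, z 0 = x ∧ z m = y ∧ (∀ k, hd (z k) (z (k + 1)) ≤ δ) ∧
      ∀ k, hd (z k) y ≤ hd x y := by
  choose f hf1 hf2 using fun z : X => exists_step z y hδ
  have hstep : ∀ k, hd (f^[k] x) y ≤ max 0 (hd x y - k * δ) := by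
    intro k
    induction k with
    | zero => simp
    | succ k ih =>
      rw [Function.iterate_succ_apply']
      refine (hf2 _).trans (max_le (le_max_left _ _) ?_)
      rcases le_total (hd x y - k * δ) 0 with h | h
      · rw [max_eq_left h] at ih
        exact le_max_of_le_left (by linarith)
      · rw [max_eq_right h] at ih
        refine le_max_of_le_right ?_
        push_cast
        linarith
  refine ⟨fun k => f^[k] x, rfl, ?_, ?_, ?_⟩
  · have := hstep m
    rw [max_eq_left (by linarith)] at this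
    exact (hd_eq_zero _ _).1 (le_antisymm this (hd_nonneg _ _))
  · intro k
    show hd (f^[k] x) (f^[k+1] x) ≤ δ
    rw [Function.iterate_succ_apply']
    exact hf1 _
  · intro k
    refine (hstep k).trans (max_le (hd_nonneg _ _) ?_)
    have : 0 ≤ (k:ℝ) * δ := by positivity
    linarith

/-- coefficients of the projection to the horosphere -/
theorem ret_coef {ξ : I → ℝ} (hn : NullF ξ) {z w : X} {a b : ℝ}
    (hw : lift w = a • lift z + b • ξ) (h1 : hb ξ w = 1) :
    a * hb ξ z = 1 ∧ b = (1 - a ^ 2) / 2 := by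
  have hξz : bl ξ (lift z) = - hb ξ z := by unfold hb; ring
  have e1 : a * hb ξ z = 1 := by
    have : hb ξ w = a * hb ξ z := by
      unfold hb
      rw [hw, bl_add_right, bl_smul_right, bl_smul_right, hn.1]; ring
    rw [← this, h1]
  refine ⟨e1, ?_⟩
  have e2 := bl_lift w
  rw [hw] at e2
  simp only [bl_add_left, bl_add_right, bl_smul_left, bl_smul_right, bl_lift, hn.1, hξz,
    bl_comm (lift z) ξ] at e2
  nlinarith

/-- the projection to a horosphere increases `ch - 1` at most by the product of the factors -/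
theorem ret_same {ξ : I → ℝ} (hn : NullF ξ) {z w z' w' : X} {a b a' b' : ℝ}
    (hw : lift w = a • lift z + b • ξ) (h1 : hb ξ w = 1)
    (hw' : lift w' = a' • lift z' + b' • ξ) (h1' : hb ξ w' = 1) :
    ch w w' ≤ 1 + a * a' * (ch z z' - 1) := by
  obtain ⟨e1, e2⟩ := ret_coef hn hw h1
  obtain ⟨e1', e2'⟩ := ret_coef hn hw' h1'
  have hξz : bl ξ (lift z) = - hb ξ z := by unfold hb; ring
  have hξz' : bl ξ (lift z') = - hb ξ z' := by unfold hb; ring
  have hzz : bl (lift z) (lift z') = - ch z z' := by unfold ch; ring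
  have e3 : ch w w' = a * a' * ch z z' + a' * hb ξ z' * b + a * hb ξ z * b' := by
    show - bl (lift w) (lift w') = _
    rw [hw, hw']
    simp only [bl_add_left, bl_add_right, bl_smul_left, bl_smul_right, hn.1, hξz, hξz',
      bl_comm (lift z) ξ, hzz]
    ring
  rw [e1, e1', e2, e2'] at e3
  rw [e3]
  nlinarith [sq_nonneg (a - a')]

/-- two points at distance at most `δ`, both at depth at most `L`, have close retractions -/
theorem ret_close {Ξ : Set (I → ℝ)} (hΞ : Horo Ξ) {r : X → X}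
    (hr1 : ∀ y ∈ Out Ξ, r y = y)
    (hr3 : ∀ ξ ∈ Ξ, ∀ y, hb ξ y ≤ 1 → hb ξ (r y) = 1 ∧ hd y (r y) = - Real.log (hb ξ y) ∧
      ∃ a b : ℝ, 1 ≤ a ∧ lift (r y) = a • lift y + b • ξ)
    {L δ : ℝ} (hδ1 : δ ≤ 1) (hδ2 : Real.exp L ^ 2 * (Real.cosh δ - 1) ≤ 1 / 2)
    {x z z' : X} (hx : x ∈ Out Ξ) (hz : hd z x ≤ L) (hz' : hd z' x ≤ L) (h : hd z z' ≤ δ) :
    hd (r z) (r z') ≤ 3 := by
  -- depth of a point near a point with `hb ≥ 1`
  have key : ∀ ξ ∈ Ξ, ∀ p q : X, hb ξ p ≤ 1 → 1 ≤ hb ξ q → hd p q ≤ δ → hd p (r p) ≤ δ := by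
    intro ξ hξ p q hp hq hpq
    rw [(hr3 ξ hξ p hp).2.1]
    have h1 := hb_lip' (hΞ.null ξ hξ) p q
    have hp0 := hb_pos' (hΞ.null ξ hξ) p
    have h2 : 1 ≤ Real.exp (hd p q) * hb ξ p := hq.trans h1
    have h3 := Real.log_le_log one_pos h2
    rw [Real.log_one, Real.log_mul (Real.exp_pos _).ne' hp0.ne', Real.log_exp] at h3
    linarith
  have hδ0 : 0 ≤ δ := (hd_nonneg _ _).trans h
  have outc : ∀ p : X, p ∉ Out Ξ → ∃ ξ ∈ Ξ, hb ξ p ≤ 1 := by
    intro p hp
    by_contra hc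
    push Not at hc
    exact hp (fun ξ hξ => (hc ξ hξ).le)
  by_cases o1 : z ∈ Out Ξ
  · by_cases o2 : z' ∈ Out Ξ
    · rw [hr1 z o1, hr1 z' o2]; linarith
    · obtain ⟨ξ, hξ, hξz⟩ := outc z' o2
      have := key ξ hξ z' z hξz (o1 ξ hξ) (by rw [hd_comm]; exact h)
      rw [hr1 z o1]
      have := hd_triangle z z' (r z')
      linarith
  · obtain ⟨ξ, hξ, hξz⟩ := outc z o1
    by_cases o2 : z' ∈ Out Ξ
    · have := key ξ hξ z z' hξz (o2 ξ hξ) h
      rw [hr1 z' o2]
      have := hd_triangle (r z) z z'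
      rw [hd_comm (r z) z] at this
      linarith
    · obtain ⟨ζ, hζ, hζz⟩ := outc z' o2
      by_cases e : ξ = ζ
      · subst e
        obtain ⟨h1, -, a, b, ha, hw⟩ := hr3 ξ hξ z hξz
        obtain ⟨h1', -, a', b', ha', hw'⟩ := hr3 ξ hξ z' hζz
        have hn := hΞ.null ξ hξ
        have k1 := (ret_coef hn hw h1).1
        have k1' := (ret_coef hn hw' h1').1
        -- `a ≤ e^L`
        have dep : ∀ (p : X) (t : ℝ), hd p x ≤ L → 0 < t → t * hb ξ p = 1 → t ≤ Real.exp L := by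
          intro p t hp ht htp
          have h2 := (hx ξ hξ).trans (hb_lip' hn p x)
          have h3 : Real.exp (hd p x) ≤ Real.exp L := Real.exp_le_exp.2 hp
          have h4 := hb_pos' hn p
          have h5 : 1 ≤ Real.exp L * hb ξ p := h2.trans (by gcongr)
          by_contra hc
          push Not at hc
          have : Real.exp L * hb ξ p < t * hb ξ p := by gcongr
          linarith
        have ha2 := dep z a hz (by linarith) k1
        have ha2' := dep z' a' hz' (by linarith) k1'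
        have h5 := ret_same hn hw h1 hw' h1'
        have h6 : ch z z' ≤ Real.cosh δ := by
          rw [← cosh_hd]
          exact Real.cosh_le_cosh.2 (by
            rw [abs_of_nonneg (hd_nonneg _ _), abs_of_nonneg hδ0]; exact h)
        have h7 : 1 ≤ ch z z' := one_le_ch z z'
        have h8 : ch (r z) (r z') ≤ 3 / 2 := by
          have : a * a' ≤ Real.exp L ^ 2 := by
            rw [sq]; gcongr
          have h9 : a * a' * (ch z z' - 1) ≤ Real.exp L ^ 2 * (Real.cosh δ - 1) := by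
            have : 0 ≤ ch z z' - 1 := by linarith
            gcongr
          linarith
        -- `cosh 3 ≥ 3/2`
        rw [← cosh_hd] at h8
        by_contra hc
        push Not at hc
        have h10 : Real.cosh 3 < Real.cosh (hd (r z) (r z')) :=
          Real.cosh_lt_cosh.2 (by
            rw [abs_of_nonneg (by norm_num : (0:ℝ) ≤ 3), abs_of_nonneg (hd_nonneg _ _)]; exact hc)
        have h11 : (3:ℝ) / 2 ≤ Real.cosh 3 := by
          have h12 := Real.cosh_sq 3
          have h13 : 3 < Real.sinh 3 := Real.self_lt_sinh_iff.2 (by norm_num)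
          have h14 := Real.cosh_pos 3
          nlinarith
        linarith
      · -- different horoballs
        have hA : 1 ≤ hb ξ z' := by
          by_contra hc
          push Not at hc
          exact e (hΞ.disj ξ hξ ζ hζ z' hc.le hζz)
        have hB : 1 ≤ hb ζ z := by
          by_contra hc
          push Not at hc
          exact e (hΞ.disj ξ hξ ζ hζ z hξz hc.le)
        have k1 := key ξ hξ z z' hξz hA h
        have k2 := key ζ hζ z' z hζz hB (by rw [hd_comm]; exact h)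
        have t1 := hd_triangle (r z) z (r z')
        have t2 := hd_triangle z z' (r z')
        rw [hd_comm (r z) z] at t1
        linarith

end R24

open R24

/-- [R2-4] chains of uniformly bounded length outside the horoballs -/
theorem exists_chain (D L : ℝ) (hD : 24 ≤ D) : ∃ m : ℕ, ∀ {Ξ : Set (I → ℝ)}, Horo Ξ →
    ∀ {P : Type} (π : P → X), (∀ σ, π σ ∈ Out Ξ) → (∀ x ∈ Out Ξ, ∃ σ, hd x (π σ) ≤ D / 16) →
    ∀ σ τ, hd (π σ) (π τ) ≤ L → ∃ c : ℕ → P, c 0 = σ ∧ c m = τ ∧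
      ∀ k, k < m → hd (π (c k)) (π (c (k + 1))) ≤ D / 2 := by
  -- choice of `δ`
  obtain ⟨δ, hδ0, hδ1, hδ2⟩ : ∃ δ : ℝ, 0 < δ ∧ δ ≤ 1 ∧
      Real.exp L ^ 2 * (Real.cosh δ - 1) ≤ 1 / 2 := by
    have hc : Filter.Tendsto (fun δ : ℝ => Real.exp L ^ 2 * (Real.cosh δ - 1)) (nhds 0)
        (nhds (Real.exp L ^ 2 * (Real.cosh 0 - 1))) := by
      apply Continuous.tendsto
      exact continuous_const.mul (Real.continuous_cosh.sub continuous_const)
    rw [Real.cosh_zero, sub_self, mul_zero] at hc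
    have h1 := hc.eventually (ge_mem_nhds (show (0:ℝ) < 1 / 2 by norm_num))
    obtain ⟨e, he, h2⟩ := Metric.eventually_nhds_iff.1 h1
    refine ⟨min (e / 2) 1, lt_min (by linarith) one_pos, min_le_right _ _, h2 ?_⟩
    rw [Real.dist_eq, sub_zero, abs_of_pos (lt_min (by linarith) one_pos)]
    exact lt_of_le_of_lt (min_le_left _ _) (by linarith)
  obtain ⟨m, hm⟩ := exists_nat_ge (L / δ)
  refine ⟨m + 1, ?_⟩
  intro Ξ hΞ P π hout hdense σ τ hστ
  obtain ⟨r, -, hr1, hr2, hr3⟩ := exists_ret hΞ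
  have hL : L ≤ (m + 1 : ℕ) * δ := by
    rw [div_le_iff₀ hδ0] at hm
    push_cast
    nlinarith
  obtain ⟨z, hz0, hzm, hz1, hz2⟩ := exists_path (π σ) (π τ) hδ0.le (m + 1) (hστ.trans hL)
  choose s hs using fun k => hdense (r (z k)) (hr2 _)
  have hclose : ∀ k, hd (r (z k)) (r (z (k + 1))) ≤ 3 := fun k =>
    ret_close hΞ hr1 hr3 hδ1 hδ2 (hout τ) ((hz2 k).trans hστ) ((hz2 (k + 1)).trans hστ) (hz1 k)
  refine ⟨fun k => if k = 0 then σ else if k = m + 1 then τ else s k, by simp, by simp, ?_⟩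
  -- every point of the chain is within `D / 16` of `r (z k)`
  have hnear : ∀ k, hd (r (z k)) (π (if k = 0 then σ else if k = m + 1 then τ else s k)) ≤ D / 16 := by
    intro k
    by_cases h0 : k = 0
    · subst h0
      rw [if_pos rfl, hz0, hr1 _ (hout σ), hd_self]
      linarith
    · rw [if_neg h0]
      by_cases h1 : k = m + 1
      · subst h1
        rw [if_pos rfl, hzm, hr1 _ (hout τ), hd_self]
        linarith
      · rw [if_neg h1]
        exact hs k
  intro k _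
  have t1 := hnear k
  have t2 := hnear (k + 1)
  have t3 := hclose k
  have t4 := hd_triangle (π (if k = 0 then σ else if k = m + 1 then τ else s k)) (r (z k))
    (π (if k + 1 = 0 then σ else if k + 1 = m + 1 then τ else s (k + 1)))
  have t5 := hd_triangle (r (z k)) (r (z (k + 1)))
    (π (if k + 1 = 0 then σ else if k + 1 = m + 1 then τ else s (k + 1)))
  rw [hd_comm _ (r (z k))] at t4
  show hd (π (if k = 0 then σ else if k = m + 1 then τ else s k))
    (π (if k + 1 = 0 then σ else if k + 1 = m + 1 then τ else s (k + 1))) ≤ D / 2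
  linarith

/-- [R2-4] derived from `chain_close` -/
theorem T_near_of_chain_close
    (chain_close : ∀ (D L ε : ℝ) (m : ℕ) (_ : 0 < ε), ∃ ρ₀ : ℝ, 0 < ρ₀ ∧
      ∀ {P : Type} (q q' : P → GLI) (ρ : ℝ), ρ ≤ ρ₀ → MF q q' D ρ → ∀ c : ℕ → P,
        (∀ k, k < m → gd (q (c k)) (q (c (k + 1))) ≤ D / 2) → ∀ x, hd x (act (q (c 0)) 0) ≤ L →
        sm x ((Tr q q' (c 0))⁻¹ * Tr q q' (c m)) ≤ ε)
    (D L ε : ℝ) (hD : 24 ≤ D) (hε : 0 < ε) : ∃ ρ₀ : ℝ, 0 < ρ₀ ∧
    ∀ {Γ Γ' : Subgroup GLI} {φ : Γ ≃* Γ'} {P : Type} {q q' : P → GLI} {Ξ Ξ' : Set (I → ℝ)} {η ρ : ℝ},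
      ρ ≤ ρ₀ → Mt Γ Γ' φ q q' Ξ Ξ' η D ρ → ∀ σ τ, hd (act (q σ) 0) (act (q τ) 0) ≤ L →
      ∀ x, hd x (act (q σ) 0) ≤ L → sm x ((Tr q q' σ)⁻¹ * Tr q q' τ) ≤ ε ∧
        hd (act (Tr q q' σ) x) (act (Tr q q' τ) x) ≤ ε := by
  obtain ⟨m, hm⟩ := exists_chain D L hD
  have hε2 : 0 < min ε (Real.cosh ε - 1) := by
    refine lt_min hε ?_
    have := Real.one_lt_cosh.2 hε.ne'
    linarith
  obtain ⟨ρ₀, hρ₀, H⟩ := chain_close D L (min ε (Real.cosh ε - 1)) m hε2
  refine ⟨ρ₀, hρ₀, ?_⟩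
  intro Γ Γ' φ P q q' Ξ Ξ' η ρ hρ hM σ τ hστ x hx
  have hG := hM.mf.inG
  have hG' := hM.mf.inG'
  obtain ⟨c, hc0, hcm, hc⟩ := hm hM.horo.horo (fun σ => act (q σ) 0) hM.out hM.dense σ τ hστ
  have h1 := H q q' ρ hρ hM.mf c (fun k hk => by
    rw [gd_eq (hG _) (hG _)]; exact hc k hk) x (by rw [hc0]; exact hx)
  rw [hc0, hcm] at h1
  refine ⟨h1.trans (min_le_left _ _), ?_⟩
  have hT : ∀ σ, InG (Tr q q' σ) := fun σ => (hG' σ).mul (hG σ).inv
  have e1 : hd (act (Tr q q' σ) x) (act (Tr q q' τ) x)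
      = hd x (act ((Tr q q' σ)⁻¹ * Tr q q' τ) x) := by
    rw [act_mul (hT τ), ← hd_act (hT σ) x, act_act_inv (hT σ)]
  rw [e1]
  have h2 := ch_le_of_sm ((hT σ).inv.mul (hT τ)) x
  rw [← cosh_hd] at h2
  have h3 := h1.trans (min_le_right _ _)
  have h4 : Real.cosh (hd x (act ((Tr q q' σ)⁻¹ * Tr q q' τ) x)) ≤ Real.cosh ε := by linarith
  have h5 := Real.cosh_le_cosh.1 h4
  rwa [abs_of_nonneg (hd_nonneg _ _), abs_of_pos hε] at h5

end Pool.Agent.helper7.WB
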