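/-
Module R2-4 of the WB project (MP_7b8095_gt): `T_near`.  helper9.
-/
import Pool.Agent.helper9.WB.R2_4
import Pool.Agent.helper74.WB.R2_3

set_option autoImplicit false
open Matrix MeasureTheory

namespace Pool.Agent.helper7.WB
open Pool.Agent.helper21.WB

/-- from [R2-3] and [R2-4] -/
theorem T_near (D L ε : ℝ) (hD : 24 ≤ D) (hε : 0 < ε) : ∃ ρ₀ : ℝ, 0 < ρ₀ ∧
    ∀ {Γ Γ' : Subgroup GLI} {φ : Γ ≃* Γ'} {P : Type} {q q' : P → GLI} {Ξ Ξ' : Set (I → ℝ)} {η ρ : ℝ},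
      ρ ≤ ρ₀ → Mt Γ Γ' φ q q' Ξ Ξ' η D ρ → ∀ σ τ, hd (act (q σ) 0) (act (q τ) 0) ≤ L →
      ∀ x, hd x (act (q σ) 0) ≤ L → sm x ((Tr q q' σ)⁻¹ * Tr q q' τ) ≤ ε ∧
        hd (act (Tr q q' σ) x) (act (Tr q q' τ) x) ≤ ε :=
  T_near_of_chain_close (fun D L ε m hε => chain_close D L ε m hε) D L ε hD hε

end Pool.Agent.helper7.WB
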